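import Mathlib

/-!
# Extensions by compact normal subgroups preserve the Baire property

If `K` is a compact normal subgroup of a topological group `G` (no separation axiom) and
`G ⧸ K` is a Baire space, then `G` is a Baire space.  We prove it for every continuous open
map with compact fibres from a regular space (not assumed Hausdorff) to a Baire space.
-/

namespace Pool.Agent.Results.MP_0c5bac_gt.BaireExtension

open Set Topology

universe u v

section General

variable {X : Type u} {Y : Type v} [TopologicalSpace X] [TopologicalSpace Y]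

/-- Admissible refinements of `V`: families of nonempty open sets whose closures lie in
`V ∩ U`, with pairwise disjoint images. -/
def Adm (f : X → Y) (V U : Set X) : Set (Set (Set X)) :=
  {F | (∀ A ∈ F, IsOpen A ∧ A.Nonempty ∧ closure A ⊆ V ∩ U) ∧
    F.PairwiseDisjoint (fun A => f '' A)}

omit [TopologicalSpace Y] in
theorem exists_max (f : X → Y) (V U : Set X) : ∃ F, Maximal (· ∈ Adm f V U) F := by
  refine zorn_subset (Adm f V U) ?_
  intro c hc hchain
  refine ⟨⋃₀ c, ⟨?_, ?_⟩, fun s hs => subset_sUnion_of_mem hs⟩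
  · rintro A ⟨F, hF, hA⟩
    exact (hc hF).1 A hA
  · intro A hA B hB hAB
    obtain ⟨F, hF, hA⟩ := hA
    obtain ⟨F', hF', hB⟩ := hB
    rcases hchain.total hF hF' with h | h
    · exact (hc hF').2 (h hA) hB hAB
    · exact (hc hF).2 hA (h hB) hAB

/-- A maximal admissible refinement. -/
noncomputable def refi (f : X → Y) (V U : Set X) : Set (Set X) := (exists_max f V U).choose

theorem refi_max (f : X → Y) (V U : Set X) : Maximal (· ∈ Adm f V U) (refi f V U) :=
  (exists_max f V U).choose_spec

theorem refi_mem {f : X → Y} {V U A : Set X} (h : A ∈ refi f V U) :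
    IsOpen A ∧ A.Nonempty ∧ closure A ⊆ V ∩ U :=
  (refi_max f V U).1.1 A h

theorem refi_disj (f : X → Y) (V U : Set X) :
    (refi f V U).PairwiseDisjoint (fun A => f '' A) := (refi_max f V U).1.2

theorem refi_dense [RegularSpace X] {f : X → Y} (hf : Continuous f)
    {V U : Set X} (hV : IsOpen V) (hU : IsOpen U) (hUd : Dense U) :
    f '' V ⊆ closure (⋃ A ∈ refi f V U, f '' A) := by
  rintro y ⟨x, hx, rfl⟩
  by_contra hy
  set D : Set Y := ⋃ A ∈ refi f V U, f '' A with hD
  have hopen : IsOpen (V ∩ f ⁻¹' (closure D)ᶜ) :=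
    hV.inter (isClosed_closure.isOpen_compl.preimage hf)
  obtain ⟨z, hz, hzU⟩ := hUd.inter_open_nonempty _ hopen ⟨x, hx, hy⟩
  have hopen2 : IsOpen ((V ∩ f ⁻¹' (closure D)ᶜ) ∩ U) := hopen.inter hU
  obtain ⟨C, hC, hCc, hCsub⟩ := exists_mem_nhds_isClosed_subset (hopen2.mem_nhds ⟨hz, hzU⟩)
  set B : Set X := interior C with hB
  have hBsub : closure B ⊆ (V ∩ f ⁻¹' (closure D)ᶜ) ∩ U :=
    (closure_minimal interior_subset hCc).trans hCsub
  have hzB : z ∈ B := mem_interior_iff_mem_nhds.2 hC
  have hBimg : ∀ A ∈ refi f V U, Disjoint (f '' B) (f '' A) := by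
    intro A hA
    rw [Set.disjoint_left]
    rintro _ ⟨b, hb, rfl⟩ hbA
    have h1 : f b ∈ (closure D)ᶜ := (hBsub (subset_closure hb)).1.2
    exact h1 (subset_closure (mem_iUnion₂.2 ⟨A, hA, hbA⟩))
  have hadm : insert B (refi f V U) ∈ Adm f V U := by
    refine ⟨?_, ?_⟩
    · intro A hA
      rcases mem_insert_iff.1 hA with rfl | hA
      · refine ⟨isOpen_interior, ⟨z, hzB⟩, fun w hw => ⟨(hBsub hw).1.1, (hBsub hw).2⟩⟩
      · exact refi_mem hA
    · refine (refi_disj f V U).insert ?_
      intro A hA _
      exact hBimg A hA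
  have hmem : B ∈ refi f V U := by
    have := (refi_max f V U).2 hadm (subset_insert _ _)
    exact this (mem_insert _ _)
  have := hBimg B hmem
  exact Set.disjoint_left.1 this (mem_image_of_mem f hzB) (mem_image_of_mem f hzB)

/-- The levels of the tree. -/
noncomputable def level (f : X → Y) (W : Set X) (U : ℕ → Set X) : ℕ → Set (Set X)
  | 0 => refi f W (U 0)
  | n + 1 => ⋃ V ∈ level f W U n, refi f V (U (n + 1))

theorem level_open {f : X → Y} {W : Set X} {U : ℕ → Set X} {n : ℕ} {V : Set X}
    (h : V ∈ level f W U n) : IsOpen V := by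
  cases n with
  | zero => exact (refi_mem h).1
  | succ n =>
    obtain ⟨P, _, hV⟩ := mem_iUnion₂.1 h
    exact (refi_mem hV).1

theorem level_disj (f : X → Y) (W : Set X) (U : ℕ → Set X) (n : ℕ) :
    (level f W U n).PairwiseDisjoint (fun A => f '' A) := by
  induction n with
  | zero => exact refi_disj _ _ _
  | succ n ih =>
    intro A hA B hB hAB
    obtain ⟨P, hP, hA⟩ := mem_iUnion₂.1 hA
    obtain ⟨Q, hQ, hB⟩ := mem_iUnion₂.1 hB
    by_cases hPQ : P = Q
    · subst hPQ
      exact refi_disj _ _ _ hA hB hAB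
    · have h1 : f '' A ⊆ f '' P := image_mono
        (subset_closure.trans ((refi_mem hA).2.2.trans inter_subset_left))
      have h2 : f '' B ⊆ f '' Q := image_mono
        (subset_closure.trans ((refi_mem hB).2.2.trans inter_subset_left))
      exact (ih hP hQ hPQ).mono h1 h2

theorem level_dense [RegularSpace X] {f : X → Y} (hf : Continuous f) {W : Set X}
    (hW : IsOpen W) {U : ℕ → Set X} (hU : ∀ n, IsOpen (U n)) (hUd : ∀ n, Dense (U n)) (n : ℕ) :
    f '' W ⊆ closure (⋃ A ∈ level f W U n, f '' A) := by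
  induction n with
  | zero => exact refi_dense hf hW (hU 0) (hUd 0)
  | succ n ih =>
    refine ih.trans (closure_minimal ?_ isClosed_closure)
    refine iUnion₂_subset fun V hV => ?_
    refine (refi_dense hf (level_open hV) (hU (n + 1)) (hUd (n + 1))).trans ?_
    refine closure_mono (iUnion₂_subset fun A hA => ?_)
    exact subset_iUnion₂_of_subset A (mem_iUnion₂.2 ⟨V, hV, hA⟩) subset_rfl

/-- A regular space (Hausdorff or not) with a continuous open map with compact fibres to a
Baire space is a Baire space. -/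
theorem baire_of_isOpenMap [RegularSpace X] [BaireSpace Y] (f : X → Y) (hf : Continuous f)
    (ho : IsOpenMap f) (hc : ∀ y, IsCompact (f ⁻¹' {y})) : BaireSpace X := by
  refine ⟨fun U hU hUd => ?_⟩
  rw [dense_iff_inter_open]
  intro W hW hWne
  set D : ℕ → Set Y := fun n => ⋃ A ∈ level f W U n, f '' A with hD
  have hDo : ∀ n, IsOpen (D n) := fun n =>
    isOpen_biUnion fun A hA => ho A (level_open hA)
  have hDd : ∀ n, f '' W ⊆ closure (D n) := fun n => level_dense hf hW hU hUd n
  have hE : Dense (⋂ n, (D n ∪ (closure (f '' W))ᶜ)) := by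
    refine dense_iInter_of_isOpen_nat (fun n => (hDo n).union isClosed_closure.isOpen_compl) ?_
    intro n y
    by_cases hy : y ∈ closure (f '' W)
    · exact closure_mono subset_union_left (closure_minimal (hDd n) isClosed_closure hy)
    · exact subset_closure (Or.inr hy)
  obtain ⟨y, hyW, hyE⟩ := hE.inter_open_nonempty _ (ho W hW) (hWne.image f)
  have hyD : ∀ n, y ∈ D n := by
    intro n
    rcases mem_iInter.1 hyE n with h | h
    · exact h
    · exact absurd (subset_closure hyW) h
  have hch : ∀ n, ∃ V ∈ level f W U n, y ∈ f '' V := by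
    intro n
    obtain ⟨V, hV, hy⟩ := mem_iUnion₂.1 (hyD n)
    exact ⟨V, hV, hy⟩
  choose V hV hyV using hch
  have hstep : ∀ n, closure (V (n + 1)) ⊆ V n ∩ U (n + 1) := by
    intro n
    obtain ⟨P, hP, hVP⟩ := mem_iUnion₂.1 (hV (n + 1))
    have hsub : f '' V (n + 1) ⊆ f '' P := image_mono
      (subset_closure.trans ((refi_mem hVP).2.2.trans inter_subset_left))
    have hPV : P = V n := by
      by_contra hne
      exact Set.disjoint_left.1 (level_disj f W U n hP (hV n) hne) (hsub (hyV (n + 1))) (hyV n)
    rw [← hPV]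
    exact (refi_mem hVP).2.2
  have h0 : closure (V 0) ⊆ W ∩ U 0 := (refi_mem (hV 0)).2.2
  have hanti : Antitone fun n => closure (V n) :=
    antitone_nat_of_succ_le fun n =>
      ((hstep n).trans inter_subset_left).trans subset_closure
  obtain ⟨x, -, hx⟩ := (hc y).inter_iInter_nonempty (fun n => closure (V n))
    (fun n => isClosed_closure) (by
      intro u
      obtain ⟨N, hN⟩ := u.exists_le
      obtain ⟨x, hxV, hxy⟩ := hyV N
      refine ⟨x, hxy, ?_⟩
      refine mem_iInter₂.2 fun i hi => ?_
      exact hanti (hN i hi) (subset_closure hxV))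
  have hx' : ∀ n, x ∈ closure (V n) := fun n => mem_iInter.1 hx n
  refine ⟨x, (h0 (hx' 0)).1, mem_iInter.2 fun n => ?_⟩
  cases n with
  | zero => exact (h0 (hx' 0)).2
  | succ n => exact (hstep n (hx' (n + 1))).2

end General

/-- **Answer to Q1 (yes).** -/
theorem result (G : Type u) [Group G] [TopologicalSpace G] [IsTopologicalGroup G]
    (K : Subgroup G) [K.Normal] (hK : IsCompact (K : Set G)) [BaireSpace (G ⧸ K)] :
    BaireSpace G := by
  refine baire_of_isOpenMap (fun g : G => (g : G ⧸ K)) QuotientGroup.continuous_mk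
    QuotientGroup.isOpenMap_coe ?_
  intro y
  obtain ⟨g, rfl⟩ := QuotientGroup.mk_surjective y
  have : (fun g : G => (g : G ⧸ K)) ⁻¹' {(g : G ⧸ K)} = (fun k => g * k) '' (K : Set G) := by
    ext x
    simp only [mem_preimage, mem_singleton_iff, mem_image, SetLike.mem_coe]
    constructor
    · intro h
      refine ⟨g⁻¹ * x, ?_, by group⟩
      exact QuotientGroup.eq.1 h.symm
    · rintro ⟨k, hk, rfl⟩
      exact (QuotientGroup.eq.2 (by simpa using hk)).symm
  rw [this]
  exact hK.image (continuous_const_mul g)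

end Pool.Agent.Results.MP_0c5bac_gt.BaireExtension
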